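import Mathlib
import Pool.Agent.BS79.Main2

set_option autoImplicit false

open Module
open scoped RealInnerProductSpace

namespace Pool.Agent.Results.MP_29fbf2_co.BeltSix

/-- There is a tiling of the space in which every tile is a translate of `P` or a translate
of `-P`. -/
def TilesByTranslatesAndNegatives {d : ℕ} (P : Set (EuclideanSpace ℝ (Fin d))) : Prop :=
  ∃ F : Set (Set (EuclideanSpace ℝ (Fin d))),
    (∀ T ∈ F, ∃ t : EuclideanSpace ℝ (Fin d), T = (fun x => t + x) '' P ∨ T = (fun x => t - x) '' P) ∧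
    ⋃₀ F = Set.univ ∧
    ∀ A ∈ F, ∀ B ∈ F, A ≠ B → Disjoint (interior A) (interior B)

/-- The face of `P` in direction `u`: the points of `P` at which the linear functional `⟪u, ·⟫` is
maximal over `P`. -/
def face {d : ℕ} (P : Set (EuclideanSpace ℝ (Fin d))) (u : EuclideanSpace ℝ (Fin d)) :
    Set (EuclideanSpace ℝ (Fin d)) :=
  {x | x ∈ P ∧ ∀ y ∈ P, ⟪u, y⟫ ≤ ⟪u, x⟫}

/-- The faces of `P` in nonzero directions whose dimension is `d - k`: for `k = 1` the facets of `P`,
for `k = 2` its ridges. -/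
def faces {d : ℕ} (P : Set (EuclideanSpace ℝ (Fin d))) (k : ℕ) :
    Set (Set (EuclideanSpace ℝ (Fin d))) :=
  {F | ∃ u : EuclideanSpace ℝ (Fin d), u ≠ 0 ∧ F = face P u ∧
    finrank ℝ (vectorSpan ℝ F) + k = d}

/-- `A` and `B` are parallel: they have the same direction space. -/
def Parallel {d : ℕ} (A B : Set (EuclideanSpace ℝ (Fin d))) : Prop :=
  vectorSpan ℝ A = vectorSpan ℝ B

/-- The belt of `G`: the facets of `P` that contain a ridge of `P` parallel to `G`. -/
def belt {d : ℕ} (P G : Set (EuclideanSpace ℝ (Fin d))) : Set (Set (EuclideanSpace ℝ (Fin d))) :=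
  {F ∈ faces P 1 | ∃ G' ∈ faces P 2, G' ⊆ F ∧ Parallel G' G}

/-- The facets of the belt of `G` on the side of `ν`: those whose outer normal vectors `n` have a
positive inner product with `ν`. -/
def beltSide {d : ℕ} (P G : Set (EuclideanSpace ℝ (Fin d))) (ν : EuclideanSpace ℝ (Fin d)) :
    Set (Set (EuclideanSpace ℝ (Fin d))) :=
  {F ∈ belt P G | ∃ n : EuclideanSpace ℝ (Fin d), F = face P n ∧ 0 < ⟪ν, n⟫}

/-- **The belts of a tile.** Let `P ⊆ ℝ^d` be a convex polytope with interior points that tiles the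
space by translates of `P` and of `-P`, and let `G` be a `(d-2)`-dimensional face of `P`.  The belt of
`G` has at most 6 facets.  If no two facets of the belt are parallel, it has at most 4 facets.  If two
facets of the belt are parallel, then there are parallel facets `A`, `A'` of the belt such that on each
side of them (the sides are given by the vectors `ν` in the direction space of `A` that are orthogonal
to `G`) there are at most 2 facets of the belt. -/
theorem result {d : ℕ} (V : Finset (EuclideanSpace ℝ (Fin d)))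
    (hinterior : (interior (convexHull ℝ (V : Set (EuclideanSpace ℝ (Fin d))))).Nonempty)
    (htiles : TilesByTranslatesAndNegatives (convexHull ℝ (V : Set (EuclideanSpace ℝ (Fin d)))))
    (G : Set (EuclideanSpace ℝ (Fin d)))
    (hG : G ∈ faces (convexHull ℝ (V : Set (EuclideanSpace ℝ (Fin d)))) 2) :
    let P : Set (EuclideanSpace ℝ (Fin d)) := convexHull ℝ (V : Set (EuclideanSpace ℝ (Fin d)))
    (belt P G).Finite ∧ (belt P G).ncard ≤ 6 ∧
      ((∀ F ∈ belt P G, ∀ F' ∈ belt P G, Parallel F F' → F = F') → (belt P G).ncard ≤ 4) ∧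
      ((∃ F ∈ belt P G, ∃ F' ∈ belt P G, F ≠ F' ∧ Parallel F F') →
        ∃ A ∈ belt P G, ∃ A' ∈ belt P G, A ≠ A' ∧ Parallel A A' ∧
          ∀ ν ∈ vectorSpan ℝ A, (∀ g ∈ vectorSpan ℝ G, ⟪ν, g⟫ = 0) →
            (beltSide P G ν).ncard ≤ 2) := by
  intro P
  have hP : PT56.Polytope P := ⟨⟨V, V.finite_toSet, rfl⟩, hinterior⟩
  have hfr : finrank ℝ (EuclideanSpace ℝ (Fin d)) = d := finrank_euclideanSpace_fin
  have h1 : faces P 1 = PT56.Facets P := by
    unfold faces PT56.Facets
    rw [hfr]
    rfl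
  have h2 : faces P 2 = BS79.Ridges P := by
    unfold faces BS79.Ridges
    rw [hfr]
    rfl
  have h3 : ∀ G, belt P G = BS79.Belt P G := by
    intro G
    unfold belt BS79.Belt
    rw [h1, h2]
    rfl
  have h4 : ∀ G ν, beltSide P G ν = BS79.side P G ν := by
    intro G ν
    unfold beltSide BS79.side
    rw [h3]
    rfl
  have hG' : G ∈ BS79.Ridges P := h2 ▸ hG
  simp only [h3, h4]
  obtain ⟨h5, h6, h7⟩ := BS79.belt_six hP htiles hG'
  refine ⟨h5, h6, h7, ?_⟩
  rintro ⟨F, hF, F', hF', hne, hpar⟩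
  exact BS79.belt_sides hP htiles hG' hF hF' hne hpar

end Pool.Agent.Results.MP_29fbf2_co.BeltSix
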