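import Mathlib
import Pool.Agent.FX79.Coh
import Pool.Agent.FF25.Conv

set_option autoImplicit false

open Module
open scoped RealInnerProductSpace

namespace Pool.Agent.Results.MP_29fbf2_co.FacetToFacet

/-- Euclidean space. -/
abbrev Space (d : ℕ) := EuclideanSpace ℝ (Fin d)

variable {d : ℕ}

/-- The face of `P` in direction `u`: the points of `P` at which the linear functional `⟪u, ·⟫` is
maximal over `P`. -/
def face (P : Set (Space d)) (u : Space d) : Set (Space d) := {x | x ∈ P ∧ ∀ y ∈ P, ⟪u, y⟫ ≤ ⟪u, x⟫}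

/-- The outer unit normal vectors of the facets of `P`. -/
def normals (P : Set (Space d)) : Set (Space d) :=
  {u | ‖u‖ = 1 ∧ finrank ℝ (vectorSpan ℝ (face P u)) + 1 = d}

/-- The set `e A + t` for the label `τ = (e, t)`. -/
def place (τ : ℝ × Space d) (A : Set (Space d)) : Set (Space d) := (fun z => τ.1 • z + τ.2) '' A

/-- The set `T` of labels is a facet-to-facet tiling by translates of `P` and of `-P`: the tiles
`e P + t`, `(e, t) ∈ T`, `e = ± 1`, cover the space, tiles with different labels have disjoint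
interiors, and every facet of every tile is also a facet of another tile. -/
structure FacetTiling (P : Set (Space d)) (T : Set (ℝ × Space d)) : Prop where
  sign : ∀ τ ∈ T, τ.1 = 1 ∨ τ.1 = -1
  cover : ∀ x : Space d, ∃ τ ∈ T, x ∈ place τ P
  disj : ∀ τ ∈ T, ∀ σ ∈ T, τ ≠ σ → Disjoint (interior (place τ P)) (interior (place σ P))
  facet : ∀ τ ∈ T, ∀ u ∈ normals P, ∃ σ ∈ T, σ ≠ τ ∧
    ∃ v ∈ normals P, place σ (face P v) = place τ (face P u)

/-- Conditions (1), (2) for the phases `x u` of the facets, elements of `ℤ / 2q`: a facet with a phase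
different from `0` is centrally symmetric (centre `c u / 2`); a facet `u` with a phase different from `q`
is mapped into the opposite facet `-u` by the translation by `t u`, and the phase of the opposite facet is
`-x u`. -/
structure Phases (P : Set (Space d)) (q : ℕ) (x : Space d → ZMod (2 * q))
    (c t : Space d → Space d) : Prop where
  pos : 0 < q
  inversion : ∀ u ∈ normals P, x u ≠ 0 → ∀ z ∈ face P u, c u - z ∈ face P u
  opposite : ∀ u ∈ normals P, x u ≠ (q : ZMod (2 * q)) → -u ∈ normals P ∧ x (-u) = -x u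
  translation : ∀ u ∈ normals P, x u ≠ (q : ZMod (2 * q)) → ∀ z ∈ face P u, z + t u ∈ face P (-u)

/-- The phase `θ` is positive: its representative in `{0, ..., 2q - 1}` is less than `q`. -/
def Positive {q : ℕ} (θ : ZMod (2 * q)) : Prop := θ.val < q

open Classical in
/-- The phase behind the facet `u` of a tile with the phase `θ`. -/
noncomputable def next {q : ℕ} (x : Space d → ZMod (2 * q)) (θ : ZMod (2 * q)) (u : Space d) :
    ZMod (2 * q) :=
  if Positive θ then θ + x u else θ - x u

/-- The phases in front of and behind the facet `u` of a tile with the phase `θ` have opposite signs. -/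
def Change {q : ℕ} (x : Space d → ZMod (2 * q)) (θ : ZMod (2 * q)) (u : Space d) : Prop :=
  ¬(Positive θ ↔ Positive (next x θ u))

open Classical in
/-- The gluing map of the facet `u` of a tile with the phase `θ`: a point reflection if the sign changes,
a translation otherwise. -/
noncomputable def glue {q : ℕ} (x : Space d → ZMod (2 * q)) (c t : Space d → Space d)
    (θ : ZMod (2 * q)) (u z : Space d) : Space d :=
  if Change x θ u then c u - z else z + t u

open Classical in
/-- The facet onto which the facet `u` of a tile with the phase `θ` is glued. -/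
noncomputable def partner {q : ℕ} (x : Space d → ZMod (2 * q)) (θ : ZMod (2 * q)) (u : Space d) :
    Space d :=
  if Change x θ u then u else -u

/-- The facets through the point `y`. -/
def through (P : Set (Space d)) (y : Space d) : Set (Space d) := {u | u ∈ normals P ∧ y ∈ face P u}

/-- One step around a ridge. A flag is an ordered pair of facets that meet in a ridge (given by a point
`y` that lies in exactly these two facets); from the flag `a` of a tile with the phase `θ` one crosses the
facet `a.2` and arrives in the flag `b` of a tile with the phase `η = next x θ a.2`, with `b.1` the facet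
onto which `a.2` is glued. -/
def Step (P : Set (Space d)) {q : ℕ} (x : Space d → ZMod (2 * q)) (c t : Space d → Space d)
    (a : Space d × Space d) (θ : ZMod (2 * q)) (b : Space d × Space d) (η : ZMod (2 * q)) : Prop :=
  η = next x θ a.2 ∧ a.1 ≠ a.2 ∧ b.1 ≠ b.2 ∧ b.1 = partner x θ a.2 ∧
    ∃ y ∈ P, through P y = {a.1, a.2} ∧ through P (glue x c t θ a.2 y) = {b.1, b.2}

/-- Condition (3): going around a ridge, after 3 steps the flag repeats and the phase repeats or is changed
by `q`, or after 4 steps flag and phase repeat. -/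
def RidgeCondition (P : Set (Space d)) {q : ℕ} (x : Space d → ZMod (2 * q))
    (c t : Space d → Space d) : Prop :=
  ∀ (a : ℕ → Space d × Space d) (θ : ℕ → ZMod (2 * q)),
    (∀ i, Step P x c t (a i) (θ i) (a (i + 1)) (θ (i + 1))) →
      (a 3 = a 0 ∧ (θ 3 = θ 0 ∨ θ 3 = θ 0 + (q : ZMod (2 * q)))) ∨ (a 4 = a 0 ∧ θ 4 = θ 0)

/-! ### Conversion -/

section Conversion

open Pool.FF24 (HPoly X)

variable {P : Set (Space d)} {Q : HPoly (Space d)} {q : ℕ} {x : Space d → ZMod (2 * q)}
  {c t : Space d → Space d}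

/-- `Q` describes `P`. -/
structure Desc (P : Set (Space d)) (Q : HPoly (Space d)) : Prop where
  body : Q.body = P
  mem : ∀ u, u ∈ Q.N ↔ u ∈ normals P

theorem Desc.face (h : Desc P Q) {u : Space d} (hu : u ∈ normals P) : face P u = Q.fc u := by
  have h1 := Pool.FF25.fce_eq ((h.mem u).2 hu)
  rw [h.body] at h1
  exact h1

theorem Desc.ncard (h : Desc P Q) : (normals P).ncard = Q.N.card := by
  have e : normals P = (Q.N : Set (Space d)) := by
    ext u
    exact (h.mem u).symm
  rw [e, Set.ncard_coe_finset]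

theorem Desc.through (h : Desc P Q) {y : Space d} (hy : y ∈ P) : through P y = Q.act y := by
  ext u
  constructor
  · rintro ⟨h1, h2⟩
    rw [h.face h1] at h2
    exact ⟨(h.mem u).2 h1, h2.2⟩
  · rintro ⟨h1, h2⟩
    have h3 := (h.mem u).1 h1
    refine ⟨h3, ?_⟩
    rw [h.face h3]
    exact ⟨h.body ▸ hy, h2⟩

theorem Desc.f2f (h : Desc P Q) {T : Set (ℝ × Space d)} :
    FacetTiling P T ↔ Pool.FF56.IsFF Q T := by
  constructor
  · rintro ⟨h1, h2, h3, h4⟩
    refine ⟨h1, ?_, ?_, ?_⟩
    · rw [h.body]; exact h2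
    · rw [h.body]; exact h3
    · intro τ hτ u hu
      obtain ⟨σ, hσ, hne, v, hv, hF⟩ := h4 τ hτ u ((h.mem u).1 hu)
      refine ⟨σ, hσ, hne, v, (h.mem v).2 hv, ?_⟩
      rw [h.face hv, h.face ((h.mem u).1 hu)] at hF
      exact hF
  · rintro ⟨h1, h2, h3, h4⟩
    rw [h.body] at h2 h3
    refine ⟨h1, h2, h3, ?_⟩
    intro τ hτ u hu
    obtain ⟨σ, hσ, hne, v, hv, hF⟩ := h4 τ hτ u ((h.mem u).2 hu)
    refine ⟨σ, hσ, hne, v, (h.mem v).1 hv, ?_⟩
    rw [h.face ((h.mem v).1 hv), h.face hu]
    exact hF

theorem next_eq (x : Space d → ZMod (2 * q)) (θ : ZMod (2 * q)) (u : Space d) :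
    next x θ u = Pool.FX56.nxt x θ u := rfl

theorem change_iff (x : Space d → ZMod (2 * q)) (θ : ZMod (2 * q)) (u : Space d) :
    Change x θ u ↔ u ∈ Pool.FX56.Inv x θ := by
  have h : u ∈ Pool.FX56.Inv x θ ↔ (Positive (next x θ u) ↔ ¬Positive θ) := Iff.rfl
  rw [h]
  unfold Change
  tauto

/-- The translation back. -/
theorem Phases.back (hG : Phases P q x c t) {u : Space d} (hu : u ∈ normals P)
    (hx : x u ≠ (q : ZMod (2 * q))) {z : Space d} (hz : z ∈ face P (-u)) :
    z + t (-u) ∈ face P u := by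
  obtain ⟨h1, h2⟩ := hG.opposite u hu hx
  have h3 : x (-u) ≠ (q : ZMod (2 * q)) := by
    intro h4
    rw [h2] at h4
    apply hx
    rw [← neg_neg (x u), h4, Pool.FX56.neg_q]
  have h4 := hG.translation (-u) h1 h3 z hz
  rwa [neg_neg] at h4

/-- The data as `FX56.Phases`. -/
theorem Desc.toPhases (h : Desc P Q) (hG : Phases P q x c t) : Pool.FX56.Phases Q q x where
  pos := hG.pos
  inv := fun u hu hx => by
    have h1 := (h.mem u).1 hu
    have h2 := hG.inversion u h1 hx
    rw [h.face h1] at h2
    exact ⟨c u, h2⟩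
  tra := fun u hu hx => by
    have h1 := (h.mem u).1 hu
    have hn := (hG.opposite u h1 hx).1
    have h2 := hG.translation u h1 hx
    have h3 := fun (z : Space d) => hG.back h1 hx (z := z)
    rw [h.face h1] at h2 h3
    rw [h.face hn] at h2 h3
    have hu' : -u ∈ Q.N := (h.mem _).2 hn
    refine ⟨hu', t u, fun z => ⟨h2 z, fun hz => ?_⟩⟩
    have h4 : t u + t (-u) = 0 :=
      Pool.FF24.tr_zero (Pool.CC95.fc_ne' Q hu) (Pool.CC95.fc_bdd' Q u) fun y hy => by
        rw [← add_assoc]
        exact h3 _ (h2 y hy)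
    have h5 := h3 _ hz
    rw [add_assoc, h4, add_zero] at h5
    exact h5
  odd := fun u hu hx => (hG.opposite u ((h.mem u).1 hu) hx).2

theorem partner_eq (hp : Pool.FX56.Phases Q q x) (θ : ZMod (2 * q)) (u : Space d) :
    partner x θ u = hp.glue.star θ u := by
  unfold partner Pool.FX65.SGlue.star
  by_cases hI : u ∈ Pool.FX56.Inv x θ
  · rw [if_pos ((change_iff x θ u).2 hI)]
    exact (if_pos hI).symm
  · rw [if_neg (fun hc => hI ((change_iff x θ u).1 hc))]
    exact (if_neg hI).symm

theorem glue_eq (h : Desc P Q) (hG : Phases P q x c t) (hp : Pool.FX56.Phases Q q x)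
    (θ : ZMod (2 * q)) {u : Space d} (hu : u ∈ normals P) (z : Space d) :
    glue x c t θ u z = hp.glue.j θ u z := by
  have hu' := (h.mem u).2 hu
  unfold glue Pool.FX65.SGlue.j
  by_cases hI : u ∈ Pool.FX56.Inv x θ
  · have hI' : u ∈ hp.glue.I θ := hI
    have h1 := hG.inversion u hu (Pool.FX56.ne_zero_of_inv hI)
    rw [h.face hu] at h1
    rw [if_pos ((change_iff x θ u).2 hI), if_pos hI',
      Pool.FX56.c_uniqI hu' h1 (hp.glue.inv θ u hu' hI')]
  · have hI' : u ∉ hp.glue.I θ := hI
    have hx := Pool.FX56.ne_q_of_not_inv hG.pos hI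
    have hn := (hG.opposite u hu hx).1
    have h1 := hG.translation u hu hx
    have h2 := fun (z : Space d) => hG.back hu hx (z := z)
    rw [h.face hu] at h1 h2
    rw [h.face hn] at h1 h2
    rw [if_neg (fun hc => hI ((change_iff x θ u).1 hc)), if_neg hI',
      Pool.FX56.c_uniqT hu' h1 (hp.glue.tr θ u hu' hI') h2]

theorem step_iff (h : Desc P Q) (hG : Phases P q x c t) (hp : Pool.FX56.Phases Q q x)
    (a b : Space d × Space d) (θ η : ZMod (2 * q)) :
    Step P x c t a θ b η ↔ η = hp.glue.nx θ a.2 ∧ hp.glue.Cross θ a b := by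
  have key : ∀ y ∈ P, Q.act y = {a.1, a.2} →
      glue x c t θ a.2 y = hp.glue.j θ a.2 y ∧ hp.glue.j θ a.2 y ∈ P := by
    intro y hy hact
    have h2 : a.2 ∈ Q.act y := by rw [hact]; simp
    refine ⟨glue_eq h hG hp θ ((h.mem _).1 h2.1) y, ?_⟩
    have h3 : y ∈ Q.fc a.2 := ⟨h.body ▸ hy, h2.2⟩
    have h4 := (Pool.FX65.j_mem (s := θ) hp.glue h2.1 h3).1
    rwa [h.body] at h4
  unfold Step
  rw [next_eq, partner_eq hp]
  refine and_congr Iff.rfl ?_
  constructor
  · rintro ⟨h1, h2, h3, y, hy, h4, h5⟩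
    rw [h.through hy] at h4
    obtain ⟨k1, k2⟩ := key y hy h4
    rw [k1, h.through k2] at h5
    exact ⟨h1, h2, h3, y, h.body ▸ hy, h4, h5⟩
  · rintro ⟨h1, h2, h3, y, hy, h4, h5⟩
    rw [h.body] at hy
    obtain ⟨k1, k2⟩ := key y hy h4
    refine ⟨h1, h2, h3, y, hy, ?_, ?_⟩
    · rw [h.through hy]; exact h4
    · rw [k1, h.through k2]; exact h5

theorem ridge_iff (h : Desc P Q) (hG : Phases P q x c t) (hp : Pool.FX56.Phases Q q x) :
    RidgeCondition P x c t ↔ Pool.FX65.Simple hp := by
  constructor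
  · intro hR θ a hs
    exact hR a θ fun i => (step_iff h hG hp _ _ _ _).2 (hs i)
  · intro hC a θ hs
    exact hC θ a fun i => (step_iff h hG hp _ _ _ _).1 (hs i)

open Classical in
theorem Desc.ofPhases (h : Desc P Q) (hp : Pool.FX56.Phases Q q x) :
    ∃ c t : Space d → Space d, Phases P q x c t := by
  let c : Space d → Space d := fun u => if hc : Pool.FF56.Csym Q u then hc.choose else 0
  let t : Space d → Space d := fun u => if ht : Pool.FF56.Tra Q u then ht.2.choose else 0
  refine ⟨c, t, hp.pos, ?_, ?_, ?_⟩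
  · intro u hu hx z hz
    have hc := hp.inv u ((h.mem u).2 hu) hx
    rw [h.face hu] at hz ⊢
    have e : c u = hc.choose := dif_pos hc
    rw [e]
    exact hc.choose_spec z hz
  · intro u hu hx
    exact ⟨(h.mem _).1 (hp.tra u ((h.mem u).2 hu) hx).1, hp.odd u ((h.mem u).2 hu) hx⟩
  · intro u hu hx z hz
    have ht := hp.tra u ((h.mem u).2 hu) hx
    rw [h.face hu] at hz
    rw [h.face ((h.mem _).1 ht.1)]
    have e : t u = ht.2.choose := dif_pos ht
    rw [e]
    exact (ht.2.choose_spec z).1 hz

end Conversion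

/-- **The convex polytopes that tile facet-to-facet by translates and negatives.**
Let `d ≥ 2` and let `P ⊆ ℝ^d` be a convex polytope with interior points and `N` facets.  Then `P` has a
facet-to-facet tiling by translates of `P` and `-P` if and only if, for some power of two `q ≤ 3^N` with
`q = 1` if `d ≤ 3`, its facets have phases in `ℤ / 2q` such that (1), (2) (`Phases`) and (3)
(`RidgeCondition`) hold. -/
theorem result {d : ℕ} (hd : 2 ≤ d) (V : Finset (Space d))
    (hinterior : (interior (convexHull ℝ (V : Set (Space d)))).Nonempty) :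
    let P : Set (Space d) := convexHull ℝ (V : Set (Space d))
    (∃ T, FacetTiling P T) ↔
      ∃ m : ℕ, 2 ^ m ≤ 3 ^ (normals P).ncard ∧ (d ≤ 3 → m = 0) ∧
        ∃ (x : Space d → ZMod (2 * 2 ^ m)) (c t : Space d → Space d),
          Phases P (2 ^ m) x c t ∧ RidgeCondition P x c t := by
  intro P
  obtain ⟨Q, hQ, hN⟩ := Pool.FF25.conv (E := Space d) (by simpa using hd) V.finite_toSet hinterior
  have h : Desc P Q := by
    refine ⟨hQ, fun u => ?_⟩
    rw [hN u]
    unfold Pool.FF25.IsFacetNormal normals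
    rw [finrank_euclideanSpace_fin]
    exact Iff.rfl
  rw [h.ncard]
  constructor
  · rintro ⟨T, hT⟩
    obtain ⟨m, hm, hm3, x, hp, hS⟩ := Pool.FX79.nec_bound3 (h.f2f.1 hT)
    obtain ⟨c, t, hG⟩ := h.ofPhases hp
    refine ⟨m, hm, fun hd3 => hm3 ?_, x, c, t, hG, (ridge_iff h hG hp).2 hS⟩
    rw [finrank_euclideanSpace_fin]
    omega
  · rintro ⟨m, -, -, x, c, t, hG, hR⟩
    obtain ⟨T, hT⟩ := (Pool.FX65.main_simple Q).2
      ⟨2 ^ m, x, h.toPhases hG, (ridge_iff h hG (h.toPhases hG)).1 hR⟩
    exact ⟨T, h.f2f.2 hT⟩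

end Pool.Agent.Results.MP_29fbf2_co.FacetToFacet
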