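import Mathlib
import Pool.Agent.PT24.FewR

set_option autoImplicit false

open Module
open scoped RealInnerProductSpace

namespace Pool.Agent.Results.MP_29fbf2_co.FewFacets

/-- There is a tiling of the space in which every tile is a translate of `P` or a translate
of `-P`. -/
def TilesByTranslatesAndNegatives {d : ℕ} (P : Set (EuclideanSpace ℝ (Fin d))) : Prop :=
  ∃ F : Set (Set (EuclideanSpace ℝ (Fin d))),
    (∀ T ∈ F, ∃ t : EuclideanSpace ℝ (Fin d), T = (fun x => t + x) '' P ∨ T = (fun x => t - x) '' P) ∧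
    ⋃₀ F = Set.univ ∧
    ∀ A ∈ F, ∀ B ∈ F, A ≠ B → Disjoint (interior A) (interior B)

/-- The facets of `P`: the sets of the points of `P` at which a nonzero linear functional `⟪u, ·⟫`
is maximal over `P`, when this set has dimension `d - 1`. -/
def facets {d : ℕ} (P : Set (EuclideanSpace ℝ (Fin d))) : Set (Set (EuclideanSpace ℝ (Fin d))) :=
  {F | ∃ u : EuclideanSpace ℝ (Fin d), u ≠ 0 ∧ F = {x | x ∈ P ∧ ∀ y ∈ P, ⟪u, y⟫ ≤ ⟪u, x⟫} ∧
    finrank ℝ (vectorSpan ℝ F) + 1 = d}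

/-- `P` is an affine image of `K × [0,1]^(d-2)`, where `K` is a triangle or a convex
quadrilateral: the convex hull, with interior points, of at most four points of the plane. -/
def IsPolygonTimesCube {d : ℕ} (P : Set (EuclideanSpace ℝ (Fin d))) : Prop :=
  ∃ (S : Finset (ℝ × ℝ)) (f : ((ℝ × ℝ) × (Fin (d - 2) → ℝ)) ≃ᵃ[ℝ] EuclideanSpace ℝ (Fin d)),
    S.card ≤ 4 ∧ (interior (convexHull ℝ (S : Set (ℝ × ℝ)))).Nonempty ∧
    P = f '' (convexHull ℝ (S : Set (ℝ × ℝ)) ×ˢ Set.Icc (0 : Fin (d - 2) → ℝ) 1)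

/-- `P` is an affine image of `{(y, t) : y ∈ [0,1]^(d-1), 0 ≤ t ≤ g(y)}`, where `g` is an affine
function which is nonnegative on the cube `[0,1]^(d-1)`. -/
def IsTruncatedParallelepiped {d : ℕ} (P : Set (EuclideanSpace ℝ (Fin d))) : Prop :=
  ∃ (f : ((Fin (d - 1) → ℝ) × ℝ) ≃ᵃ[ℝ] EuclideanSpace ℝ (Fin d))
    (g : (Fin (d - 1) → ℝ) →ᵃ[ℝ] ℝ),
    (∀ y ∈ Set.Icc (0 : Fin (d - 1) → ℝ) 1, 0 ≤ g y) ∧
    P = f '' {p | p.1 ∈ Set.Icc (0 : Fin (d - 1) → ℝ) 1 ∧ 0 ≤ p.2 ∧ p.2 ≤ g p.1}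

/-- **Tiles with at most `2d` facets.** A convex polytope in `ℝ^d`, `d ≥ 2`, with at most `2d`
facets tiles the space by translates and negatives if and only if it is an affine image of
`K × [0,1]^(d-2)`, `K` a triangle or a convex quadrilateral, or of a truncated parallelepiped
`{(y, t) : y ∈ [0,1]^(d-1), 0 ≤ t ≤ g(y)}`. -/
theorem result {d : ℕ} (hd : 2 ≤ d) (V : Finset (EuclideanSpace ℝ (Fin d)))
    (hinterior : (interior (convexHull ℝ (V : Set (EuclideanSpace ℝ (Fin d))))).Nonempty)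
    (hfacets : (facets (convexHull ℝ (V : Set (EuclideanSpace ℝ (Fin d))))).ncard ≤ 2 * d) :
    TilesByTranslatesAndNegatives (convexHull ℝ (V : Set (EuclideanSpace ℝ (Fin d)))) ↔
      IsPolygonTimesCube (convexHull ℝ (V : Set (EuclideanSpace ℝ (Fin d)))) ∨
      IsTruncatedParallelepiped (convexHull ℝ (V : Set (EuclideanSpace ℝ (Fin d)))) := by
  set P := convexHull ℝ (V : Set (EuclideanSpace ℝ (Fin d))) with hPd
  have hP : PT56.Polytope P := ⟨⟨V, V.finite_toSet, rfl⟩, hinterior⟩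
  have hfr : finrank ℝ (EuclideanSpace ℝ (Fin d)) = d := finrank_euclideanSpace_fin
  have hF : facets P = PT56.Facets P := by
    unfold facets PT56.Facets
    rw [hfr]
    rfl
  rw [hF] at hfacets
  have h := PT24.few_facets hP hfr hd hfacets
  have hA : PT24.ShapeA d P ↔ IsPolygonTimesCube P := by
    constructor
    · rintro ⟨Q, f, ⟨S, hS, rfl, hi⟩, h⟩
      exact ⟨S, f, hS, hi, h⟩
    · rintro ⟨S, f, hS, hi, h⟩
      exact ⟨_, f, ⟨S, hS, rfl, hi⟩, h⟩
  rw [← hA]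
  exact h

end Pool.Agent.Results.MP_29fbf2_co.FewFacets
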