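import Mathlib
import Pool.Agent.FF25.Conv
import Pool.Agent.FX65.OneS
import Pool.Agent.FX65.Simple
import Pool.Agent.FX24.PerB

set_option autoImplicit false

open Module
open scoped RealInnerProductSpace

namespace Pool.Agent.Results.MP_29fbf2_co.PeriodicTiling

/-- Euclidean space. -/
abbrev Space (d : ℕ) := EuclideanSpace ℝ (Fin d)

variable {d : ℕ}

/-- The face of `P` in direction `u`: the points of `P` at which the linear functional `⟪u, ·⟫` is
maximal over `P`. -/
def face (P : Set (Space d)) (u : Space d) : Set (Space d) := {x | x ∈ P ∧ ∀ y ∈ P, ⟪u, y⟫ ≤ ⟪u, x⟫}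

/-- The outer unit normal vectors of the facets of `P`. -/
def normals (P : Set (Space d)) : Set (Space d) :=
  {u | ‖u‖ = 1 ∧ finrank ℝ (vectorSpan ℝ (face P u)) + 1 = d}

/-- The set `e A + t` for the label `τ = (e, t)`. -/
def place (τ : ℝ × Space d) (A : Set (Space d)) : Set (Space d) := (fun z => τ.1 • z + τ.2) '' A

/-- The set `T` of labels is a facet-to-facet tiling by translates of `P` and of `-P`: the tiles
`e P + t`, `(e, t) ∈ T`, `e = ± 1`, cover the space, tiles with different labels have disjoint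
interiors, and every facet of every tile is also a facet of another tile. -/
structure FacetTiling (P : Set (Space d)) (T : Set (ℝ × Space d)) : Prop where
  sign : ∀ τ ∈ T, τ.1 = 1 ∨ τ.1 = -1
  cover : ∀ x : Space d, ∃ τ ∈ T, x ∈ place τ P
  disj : ∀ τ ∈ T, ∀ σ ∈ T, τ ≠ σ → Disjoint (interior (place τ P)) (interior (place σ P))
  facet : ∀ τ ∈ T, ∀ u ∈ normals P, ∃ σ ∈ T, σ ≠ τ ∧
    ∃ v ∈ normals P, place σ (face P v) = place τ (face P u)

/-- The translations that map the tiling to itself (the translation by `v` maps the tile with label `(e, t)`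
to the tile with label `(e, t + v)`). -/
def Translations (T : Set (ℝ × Space d)) : Set (Space d) :=
  {v | ∀ τ : ℝ × Space d, τ ∈ T ↔ (τ.1, τ.2 + v) ∈ T}

/-- The tiling is periodic with at most `k` tiles in a period: it is invariant under the translations by the
vectors of a basis of the space, and every tile is a translate of one of `k` tiles by a translation that maps
the tiling to itself. -/
structure Periodic (T : Set (ℝ × Space d)) (k : ℕ) : Prop where
  basis : ∃ b : Basis (Fin d) ℝ (Space d), ∀ i, b i ∈ Translations T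
  classes : ∃ F : Finset (ℝ × Space d), F.card ≤ k ∧
    ∀ τ ∈ T, ∃ σ ∈ F, ∃ v ∈ Translations T, τ = (σ.1, σ.2 + v)

/-! ### Conversion -/

open Pool.FF24 in
theorem ff_iff {P : Set (Space d)} {Q : HPoly (Space d)} (hQ : Q.body = P)
    (hN : ∀ u, u ∈ Q.N ↔ u ∈ normals P) {T : Set (ℝ × Space d)} :
    FacetTiling P T ↔ Pool.FF56.IsFF Q T := by
  subst hQ
  have hF : ∀ u ∈ normals Q.body, face Q.body u = Q.fc u := fun u hu =>
    Pool.FF25.fce_eq ((hN u).2 hu)
  constructor
  · rintro ⟨h1, h2, h3, h4⟩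
    refine ⟨h1, h2, h3, ?_⟩
    intro τ hτ u hu
    obtain ⟨σ, hσ, hne, v, hv, hE⟩ := h4 τ hτ u ((hN u).1 hu)
    refine ⟨σ, hσ, hne, v, (hN v).2 hv, ?_⟩
    rw [hF v hv, hF u ((hN u).1 hu)] at hE
    exact hE
  · rintro ⟨h1, h2, h3, h4⟩
    refine ⟨h1, h2, h3, ?_⟩
    intro τ hτ u hu
    obtain ⟨σ, hσ, hne, v, hv, hE⟩ := h4 τ hτ u ((hN u).2 hu)
    refine ⟨σ, hσ, hne, v, (hN v).1 hv, ?_⟩
    rw [hF v ((hN v).1 hv), hF u hu]
    exact hE

/-- **Facet-to-facet tilings by translates and negatives: a polytope which has one has a periodic one.**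
Let `d ≥ 2` and let `P ⊆ ℝ^d` be a convex polytope with interior points and `N` facets.  If `P` has a
facet-to-facet tiling by translates of `P` and of `-P`, then `P` has such a tiling which is periodic with at
most `2 * 3 ^ N` tiles in a period, and with at most two tiles in a period if `d ≤ 3`. -/
theorem result {d : ℕ} (hd : 2 ≤ d) (V : Finset (Space d))
    (hinterior : (interior (convexHull ℝ (V : Set (Space d)))).Nonempty)
    (htile : ∃ T, FacetTiling (convexHull ℝ (V : Set (Space d))) T) :
    ∃ T, FacetTiling (convexHull ℝ (V : Set (Space d))) T ∧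
      Periodic T (2 * 3 ^ (normals (convexHull ℝ (V : Set (Space d)))).ncard) ∧
      (d ≤ 3 → Periodic T 2) := by
  obtain ⟨Q, hQ, hN⟩ := Pool.FF25.conv (E := Space d) (by simpa using hd) V.finite_toSet hinterior
  have hN' : ∀ u, u ∈ Q.N ↔ u ∈ normals (convexHull ℝ (V : Set (Space d))) := by
    intro u
    rw [hN u]
    unfold Pool.FF25.IsFacetNormal normals
    rw [finrank_euclideanSpace_fin]
    exact Iff.rfl
  have hcard : (normals (convexHull ℝ (V : Set (Space d)))).ncard = Q.N.card := by
    rw [← Set.ncard_coe_finset]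
    congr 1
    ext u
    exact (hN' u).symm
  obtain ⟨T, hT⟩ := htile
  obtain ⟨m, hq, hspec, x, h, hS⟩ := Pool.FX65.nec_special ((ff_iff hQ hN').1 hT)
  have hC := Pool.FX65.cyc_of_simple h hS
  have hpos := h.pos
  have : NeZero (2 * 2 ^ m) := ⟨by omega⟩
  obtain ⟨h1, b, hb⟩ := Pool.FX24.periodic_tiles h.glue hC
  obtain ⟨F, hF, hcl⟩ := Pool.FX24.classes h
  have hbasis : ∀ i, (b.reindex (finCongr (finrank_euclideanSpace_fin))) i ∈
      Translations (Pool.FX65.tiles h.glue) := by
    intro i τ
    rw [Basis.reindex_apply]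
    exact hb _ τ
  refine ⟨_, (ff_iff hQ hN').2 h1, ⟨⟨_, hbasis⟩, F, ?_, hcl⟩, fun hs => ⟨⟨_, hbasis⟩, F, ?_, hcl⟩⟩
  · rw [hcard]
    exact hF.trans (Nat.mul_le_mul_left 2 hq)
  · have hm : m = 0 := hspec (by
      left
      rw [finrank_euclideanSpace_fin]
      omega)
    rw [hm, pow_zero, mul_one] at hF
    exact hF

end Pool.Agent.Results.MP_29fbf2_co.PeriodicTiling
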